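import Pool.Agent.TH668.Csp.P1

/-!
# Constraint satisfaction problems that pp-construct graph colouring are hard for circuits with few NOT gates

A template is a relational structure `𝔸` with an arbitrary (finite or infinite) domain and signature;
an instance is a set of constraints over `N` variables, to be satisfied by values in `𝔸`. More
generally, let two templates `𝔸`, `𝔹` with the same signature be given (a promise constraint
satisfaction problem; `𝔹 = 𝔸` is the ordinary one): the instances that are satisfiable in `𝔸` have to
be told from those that are not satisfiable in `𝔹`.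

The theorem: if `𝔸`, `𝔹` pp-construct the problem of telling the `K`-colourable graphs from the graphs
without colouring with `2K-2` colours, for some `K ≥ 3` (for instance if `𝔹 = 𝔸` and `𝔸` pp-constructs
the complete graph with three vertices), then every family of circuits that tells the two kinds of
instances with `N` variables apart with advantage `ξ` contains one of size larger than `2 ^ (N ^ c)`,
even if the gates are arbitrary nondecreasing functions of two real numbers and further, arbitrary
gates are allowed, the product of the numbers `w + 1` (`w` the number of wires of the further gate)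
being at most `N ^ a`; for NOT gates this means `a * log2 N` of them.  Here `a < 1` is arbitrary and
`c` is any positive number smaller than `(1 - a) / 52`.

Proof. Systems of parity equations (`Pool.Agent.H630AD`, `Pool.Agent.H630CD`: starting result
`ApproximateColouring`) are translated into instances over names for the functions from pairs of
different colours to `A`; two variables of the pp-formula which are equal for all pairs of
different colours get the same name, and a variable that depends on one of the two colours only is
named after the vertex (`Pool.Agent.TH668.Csp.P1`). So each constraint is present if and only if some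
equation of a set of equations is, and the reduction needs no gates at all.
-/

open scoped Classical
open Finset

namespace Pool.Agent.Results.MP_069684_lc.ConstructsColouring

open H630VC H630XR H630SD
open Pool.Agent.W994.AR (Str PPConstructsK3)
open Pool.Agent.TH668.Csp (Constructs)

/-- the instance `F` (a set of constraints with variables in `V`) is satisfiable in `𝔸` -/
def Satisfiable {A ι V : Type} {ar : ι → ℕ} (𝔸 : Str ι ar A) (F : Set (Con ar V)) : Prop :=
  ∃ x : V → A, ∀ c ∈ F, (fun j => x (c.2 j)) ∈ 𝔸 c.1

/-- the family `f r`, `r ∈ R`, of functions distinguishes the instances over `N` variables that are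
satisfiable in `𝔸` (value less than one) from those that are not satisfiable in `𝔹` (value at least
one) with advantage `ξ`: at least a fraction `1/2 + ξ` of the values is right -/
def Distinguishes {A B ι R : Type} [Fintype R] {ar : ι → ℕ} (𝔸 : Str ι ar A) (𝔹 : Str ι ar B)
    (N : ℕ) (ξ : ℝ) (f : R → Set (Con ar (Fin N)) → ℝ) : Prop :=
  ∀ F : Set (Con ar (Fin N)),
    (Satisfiable 𝔸 F → (1 / 2 + ξ) * Fintype.card R ≤ (univ.filter fun r => f r F < 1).card) ∧
    (¬ Satisfiable 𝔹 F → (1 / 2 + ξ) * Fintype.card R ≤ (univ.filter fun r => 1 ≤ f r F).card)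

theorem result :
    (∀ (A ι : Type) (ar : ι → ℕ) (𝔸 : Str ι ar A), PPConstructsK3 𝔸 → Constructs 𝔸 𝔸 3) ∧
    ∀ (A B ι : Type) (ar : ι → ℕ) (𝔸 : Str ι ar A) (𝔹 : Str ι ar B) (K : ℕ), 3 ≤ K →
      Constructs 𝔸 𝔹 K → ∀ a c ξ : ℝ, 0 ≤ a → a < 1 → 0 < c → c < (1 - a) / 52 → 0 < ξ →
      ∃ N₀ : ℕ, ∀ N : ℕ, N₀ ≤ N → ∀ (R : Type) [Fintype R] [Nonempty R]
        (f : R → Set (Con ar (Fin N)) → ℝ) (l : R → List (Set (Con ar (Fin N)) → ℝ))
        (q : R → List (List ((Set (Con ar (Fin N)) → ℝ) × ℝ))),
        (∀ r, FProg (conInputs ar (Fin N)) (l r) (q r)) → (∀ r, f r ∈ l r) →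
        Distinguishes 𝔸 𝔹 N ξ f → (∀ r, (combos (q r) : ℝ) ≤ (N : ℝ) ^ a) →
        ∃ r, (2 : ℝ) ^ ((N : ℝ) ^ c) < (l r).length + wires (q r) := by
  refine ⟨fun A ι ar 𝔸 h => Pool.Agent.TH668.Csp.constructs_of_k3 𝔸 h, ?_⟩
  intro A B ι ar 𝔸 𝔹 K hK hC a c ξ ha0 ha hc0 hc hξ
  obtain ⟨N₀, hN₀⟩ := Pool.Agent.TH668.Csp.lower 𝔸 𝔹 K hK hC a c ξ ha0 ha hc0 hc hξ
  refine ⟨N₀, fun N hN R _ _ f l q hp hf hdec hcomb => ?_⟩
  exact hN₀ N hN R f l q hp hf (fun F => ⟨fun h => (hdec F).1 h, fun h => (hdec F).2 h⟩) hcomb

end Pool.Agent.Results.MP_069684_lc.ConstructsColouring
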