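import Pool.Agent.TH680.NPP.Chg
import Pool.Agent.TH680.IE.Law

/-!
# `P/poly` versus `NP/poly` relative to random oracles with independent bits

An oracle `A` is chosen at random: the string `x` is in `A` with probability `p x`, independently
for all strings `x`, where `p` is an arbitrary function (`indep p` is the distribution of `A`). Let
`mode p` be the oracle of the more probable values, i.e. the set of the `x` with `p x > 1 / 2`, and
let `dev p n` be the expected number of the strings of length `n` for which `A` has the less
probable value.

* If `dev p` is bounded by a polynomial, then for almost all `A` the class `P/poly` relative to `A`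
  is the class `P/poly` relative to `mode p`, and `NP/poly` relative to `A` is `NP/poly` relative
  to `mode p`.
* If `dev p` is not bounded by a polynomial, then for almost all `A` the classes `P/poly` and
  `NP/poly` relative to `A` are different, provided that `mode p` is in the polynomial hierarchy
  relative to `A`, for almost all `A`.

So if every string `x` is put into a set independently with a probability `p x ≤ 1 / 2`, then
`P/poly = NP/poly` relative to almost all these sets if and only if the expected number of their
strings of length `n` is bounded by a polynomial and `P/poly = NP/poly` holds without oracle.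

The second part follows from the infinity of the polynomial hierarchy (the hand-in
`MP_28250c_lc.IndependentBits`) with the theorem of Yap, relative to an oracle. New here is the
first part, for nonuniform classes: the (polynomially many) strings of length `n` with the less
probable value are part of the advice.
-/

set_option autoImplicit false

namespace Pool.Agent.Results.MP_069684_lc.IndependentBits

open MeasureTheory Pool.Agent.NPC Pool.Agent.H620R2.Gauge
open Pool.Agent.H591R3.PHG (IsSig)
open Pool.Agent.W900.IE (indep dev)

/-- The more probable values. -/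
noncomputable def mode (p : List Bool → unitInterval) : Oracle := fun x =>
  decide ((1 / 2 : ℝ) < p x)

/-- The sequence `f` is bounded by a polynomial. -/
def PolyBounded (f : ℕ → ℝ) : Prop := ∃ c : ℕ, ∀ n, f n ≤ (n : ℝ) ^ c + c

/-- The language `L` is in `C/poly`: for some `L'` in the class `C`, a polynomial `q` and strings
`h n` of length at most `q n`, `x` is in `L` if and only if `⟨x, h |x|⟩` is in `L'`. -/
def Poly (C : Set (List Bool) → Prop) (L : Set (List Bool)) : Prop :=
  ∃ (L' : Set (List Bool)) (h : ℕ → List Bool) (q : Polynomial ℕ), C L' ∧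
    (∀ n, (h n).length ≤ q.eval n) ∧ ∀ x, x ∈ L ↔ pairBits x (h x.length) ∈ L'

/-- The empty oracle. -/
def empty : Oracle := fun _ => false

/-- **`P/poly` versus `NP/poly` relative to random oracles with independent bits.** -/
theorem result (p : List Bool → unitInterval) :
    (PolyBounded (dev p) → ∀ᵐ A ∂(indep p), ∀ L : Set (List Bool),
      (Poly (IsP A) L ↔ Poly (IsP (mode p)) L) ∧ (Poly (IsNP A) L ↔ Poly (IsNP (mode p)) L)) ∧
    (¬ PolyBounded (dev p) → (∀ᵐ A ∂(indep p), ∃ k, IsSig A k {x | mode p x = true}) →
      ∀ᵐ A ∂(indep p), ∃ L, Poly (IsNP A) L ∧ ¬ Poly (IsP A) L) ∧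
    ((∀ x, (p x : ℝ) ≤ 1 / 2) → ∀ᵐ A ∂(indep p),
      ((∀ L, Poly (IsNP A) L → Poly (IsP A) L) ↔
        PolyBounded (dev p) ∧ ∀ L, Poly (IsNP empty) L → Poly (IsP empty) L)) := by
  have h1 : PolyBounded (dev p) → ∀ᵐ A ∂(indep p), ∀ L : Set (List Bool),
      (Poly (IsP A) L ↔ Poly (IsP (mode p)) L) ∧
        (Poly (IsNP A) L ↔ Poly (IsNP (mode p)) L) := by
    rintro ⟨c, hc⟩
    filter_upwards [W900.IE.ae_sparse p c hc] with A hA L
    exact ⟨TH680.NPP.ppoly_iff hA L, TH680.NPP.nppoly_iff hA L⟩
  have h2 : ¬ PolyBounded (dev p) → (∀ᵐ A ∂(indep p), ∃ k, IsSig A k {x | mode p x = true}) →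
      ∀ᵐ A ∂(indep p), ∃ L, Poly (IsNP A) L ∧ ¬ Poly (IsP A) L := by
    intro h h'
    filter_upwards [TH680.IE.ae_infinite h h'] with A hA
    exact TH680.NPP.ppoly_of_infinite hA
  refine ⟨h1, h2, fun hp => ?_⟩
  have hm : mode p = empty := by
    funext x
    exact decide_eq_false (not_lt.2 (hp x))
  by_cases h : PolyBounded (dev p)
  · filter_upwards [h1 h] with A hA
    rw [hm] at hA
    constructor
    · exact fun h' => ⟨h, fun L hL => (hA L).1.1 (h' L ((hA L).2.2 hL))⟩
    · exact fun h' L hL => (hA L).1.2 (h'.2 L ((hA L).2.1 hL))
  · have h3 : ∀ᵐ A ∂(indep p), ∃ k, IsSig A k {x | mode p x = true} := by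
      refine Filter.Eventually.of_forall fun A => ⟨0, ?_⟩
      rw [hm]
      exact W900.IE.Lev.isSig (n := 0) (W900.IE.Lev.base
        (W900.IE.TT.poly A (g := fun _ : List Bool => false) (NPC.Poly.const false)))
    filter_upwards [h2 h h3] with A hA
    obtain ⟨L, hL, hL'⟩ := hA
    exact ⟨fun h' => absurd (h' L hL) hL', fun h' => absurd h'.1 h⟩

end Pool.Agent.Results.MP_069684_lc.IndependentBits
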