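import Pool.Agent.TH762.PP.Law

/-!
# `P/poly` and `NP/poly`: excluding one vector of answers with circuits of polynomial size

`InNP`, `InP` are `NP`, `P` and `NPHard` is hardness under polynomial-time many-one reductions, on
Mathlib's `Turing.FinTM2` machines. `Slash C` is the class `C/poly` (advice strings of polynomial
length which depend on the length of the input only).

Let `A` be `NP`-hard and consider `m` questions `x₁ ∈ A`, ..., `x_m ∈ A` for strings of length at most
`n`, where `m = m (n)` is any number at most polynomial in `n`. Their answers form a vector in
`{0, 1} ^ m`. Let a family of polynomially many vectors be given which is strongly explicit: the
entries can be computed in polynomial time from the binary codes of `m`, the number of the vector,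
and the position (`L` is the set of the triples with the entry `1`).

`FeasiblePoly (Exclude L A)`: a polynomial-time algorithm with an advice string `θ` of polynomial
length (that is, circuits of polynomial size) finds from the questions the number of a vector of the
family which is not the vector of the answers. `FeasiblePoly (ExcludeCount A)`: it finds one of the
`m + 1` numbers `0, ..., m` which is not the number of positive answers. `FeasiblePoly (NotOnly A)`:
it finds an index `i` such that `x_i` is not the only positive answer. `CountQuestionsPoly A`: the
number of positive answers can be computed in polynomial time, with advice of polynomial length and
with at most `⌊log₂ m⌋` adaptive questions to some oracle, which may be any set whatsoever.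

Each of these is possible for some `NP`-hard set if and only if `P/poly = NP/poly`.

Proof. Let `B` be in `NP`, let `q` be a list of questions on `B`, `k` the number of positive answers
and `w` the vector of the answers. For each seed `s` of a pairwise independent family of hash
functions and each prefix length `j` the set of the `(q, k, j, s, i)` such that some vector `w'` with
exactly `k` entries `1`, all of them certified, has 1 as the entry `i` of the vector with the number
`hash_s (w'_1 ... w'_j)` is in `NP`, and for the true `k` the only such `w'` is `w`. Hence these
questions become questions on `A` whose vector of answers is the vector with the number
`hash_s (w_1 ... w_j)`; the circuit excludes a number `r_s`, and a prefix `v` with `hash_s v = r_s`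
for some `s` is discarded. So polynomially many prefixes survive, for each `j`, and the true vector
`w` is in a list of polynomial length computed by circuits. A set with this property for all lists `q`
has circuits of polynomial size: a weighted majority vote of the candidates of randomly chosen
labelled lists (a min-max and sampling argument) gives advice strings.
-/

set_option autoImplicit false

namespace Pool.Agent.Results.MP_069684_lc.NonuniformExclusion

open Pool.Agent.NPC Pool.Agent.TH684.EX Pool.Agent.TH762.PP

/-- **Exclusion of one vector of answers for `NP`-hard sets by circuits of polynomial size** is
possible if and only if `P/poly = NP/poly`. -/
theorem result : List.TFAE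
    [∀ L : Set (List Bool), Slash InNP L → Slash InP L,
      ∀ L : Set (List Bool), InNP L → Slash InP L,
      ∃ A L : Set (List Bool), NPHard A ∧ InP L ∧ FeasiblePoly (Exclude L A),
      ∃ A : Set (List Bool), NPHard A ∧ FeasiblePoly (ExcludeCount A),
      ∃ A : Set (List Bool), NPHard A ∧ CountQuestionsPoly A,
      ∃ A : Set (List Bool), NPHard A ∧ FeasiblePoly (NotOnly A)] :=
  law_np

end Pool.Agent.Results.MP_069684_lc.NonuniformExclusion
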