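import Pool.Agent.TH442.RS.Inv
import Pool.Agent.TH442.RP.Inv
import Pool.Agent.TH442.NU.Perm

/-!
# `P/poly` versus `NP/poly` relative to random structures

`R` is a sequence of relations with `K ≥ 1` places, one on the set of the strings of length `n`
for every `n`. The sequence is random; its law is invariant under renaming the strings of every
length, and otherwise arbitrary (no independence). For example, `R n` can be the image of a fixed
structure (a set, a graph, an order, the graph of a function, the multiplication of a group, ...)
on the strings of length `n` under a uniformly random permutation of these strings. The oracle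
`ora R` answers questions about membership. The support of `r` is the least number of strings such
that `r` is invariant under all the permutations that fix these strings.

Almost surely one of the following two cases occurs.

* The supports of the relations `R n` are polynomially bounded, `P/poly` relative to `R` is
  `P/poly`, and `NP/poly` relative to `R` is `NP/poly`.
* The supports are not polynomially bounded, and some language in `coNP` relative to `R` is not
  in `NP/poly` relative to `R`; so `P/poly` and `NP/poly` relative to `R` are different.

So `P/poly = NP/poly` relative to `R` if and only if the supports are polynomially bounded and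
`P/poly = NP/poly`. This is part 1 of the theorem. Part 2 is the same for random permutations
`π n` of the strings of length `n` with a law that is invariant under conjugation and the oracle
that gives the bits of `π y`; here the number of moved strings replaces the support.

The second case follows from the hand-in `MP_28250c_lc.RandomStructures` (the hierarchy relative to
`R` is infinite) with the theorem of Yap, relative to an oracle. New here is the first case: a
relation with `K` places and support `S` is determined by its values at the tuples from `S` and
`K` further strings, and these polynomially many values are the advice from which the answers of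
the oracle can be computed in polynomial time (`TH442.NU.tabled_of_supp`).
-/

set_option autoImplicit false

namespace Pool.Agent.Results.MP_069684_lc.RandomStructures

open MeasureTheory Pool.Agent.NPC Pool.Agent.H620R2.Gauge
open Pool.Agent.TH442

/-- The sequence `f` is bounded by a polynomial. -/
def PolyBounded (f : ℕ → ℕ) : Prop := ∃ c : ℕ, ∀ n, f n ≤ n ^ c + c

/-- The language `L` is in `C/poly`: for some `L'` in the class `C`, a polynomial `q` and strings
`h n` of length at most `q n`, `x` is in `L` if and only if `⟨x, h |x|⟩` is in `L'`. -/
def Poly (C : Set (List Bool) → Prop) (L : Set (List Bool)) : Prop :=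
  ∃ (L' : Set (List Bool)) (h : ℕ → List Bool) (q : Polynomial ℕ), C L' ∧
    (∀ n, (h n).length ≤ q.eval n) ∧ ∀ x, x ∈ L ↔ pairBits x (h x.length) ∈ L'

/-- The empty oracle. -/
def empty : Oracle := fun _ => false

/-- The sequence `f` decides how `P/poly` and `NP/poly` relative to the oracle `A` are related. -/
def Law (A : Oracle) (f : ℕ → ℕ) : Prop :=
  (PolyBounded f → ∀ L, (Poly (IsP A) L ↔ Poly (IsP empty) L) ∧
    (Poly (IsNP A) L ↔ Poly (IsNP empty) L)) ∧
  (¬ PolyBounded f → ∃ L, IsNP A L ∧ ¬ Poly (IsNP A) Lᶜ) ∧
  ((∀ L, Poly (IsNP A) L → Poly (IsP A) L) ↔
    PolyBounded f ∧ ∀ L, Poly (IsNP empty) L → Poly (IsP empty) L)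

theorem law_of {A : Oracle} {f : ℕ → ℕ} (h1 : PolyBounded f → ∀ L : Set (List Bool),
      (WithAdvice (IsP A) L ↔ WithAdvice (IsP fun _ => false) L) ∧
      (WithAdvice (IsNP A) L ↔ WithAdvice (IsNP fun _ => false) L))
    (h2 : ¬ PolyBounded f → Pool.Agent.W900.IE.InfinitePH A) : Law A f := by
  refine ⟨h1, fun h => NU.conp_of_infinite (h2 h), ?_⟩
  by_cases h : PolyBounded f
  · constructor
    · exact fun h' => ⟨h, fun L hL => (h1 h L).1.1 (h' L ((h1 h L).2.2 hL))⟩
    · exact fun h' L hL => (h1 h L).1.2 (h'.2 L ((h1 h L).2.1 hL))
  · constructor
    · exact fun h' => absurd h' (NU.not_sub_of_conp (NU.conp_of_infinite (h2 h)))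
    · exact fun h' => absurd h'.1 h

/-- **`P/poly` versus `NP/poly` relative to random structures.** -/
theorem result :
    (∀ (K : ℕ) (ρ : Measure (RS.Strs K)), 1 ≤ K → IsProbabilityMeasure ρ →
      (∀ τ : (n : ℕ) → Equiv.Perm (Fin n → Bool), ρ.map (fun R n => RS.ren (τ n) (R n)) = ρ) →
      ∀ᵐ R ∂ρ, Law (RS.ora R) (fun n => RS.supp (R n))) ∧
    (∀ ρ : Measure RP.Perms, IsProbabilityMeasure ρ →
      (∀ τ : (n : ℕ) → Equiv.Perm (Fin n → Bool),
        ρ.map (fun π n => τ n * π n * (τ n)⁻¹) = ρ) →
      ∀ᵐ π ∂ρ, Law (RP.ora π) (RP.moved π)) := by
  constructor
  · intro K ρ hK _ hρ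
    filter_upwards [RS.main_inv hK hρ] with R hR
    exact law_of (fun h L => NU.iff_emp (NU.tabled_of_supp hK h) L)
      (fun h => hR.2 (Or.inl h))
  · intro ρ _ hρ
    filter_upwards [RP.main_inv hρ] with π hπ
    exact law_of (fun h L => NU.iff_of_moved h L) (fun h => hπ.2 (Or.inl h))

end Pool.Agent.Results.MP_069684_lc.RandomStructures
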